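import Mathlib

/-!
# Counting lemmas for the distance to the next element of a set

`Nx T n q`: `q` is the least element of `T` beyond `n`.
-/

set_option autoImplicit false

namespace Pool.Agent.H526.ND

open Finset

/-- `q` is the least element of `T` beyond `n` -/
def Nx (T : ℕ → Prop) (n q : ℕ) : Prop := T q ∧ n < q ∧ ∀ m, n < m → m < q → ¬ T m

lemma Nx_unique {T : ℕ → Prop} {n q q' : ℕ} (h : Nx T n q) (h' : Nx T n q') : q = q' := by
  rcases lt_trichotomy q q' with h1 | h1 | h1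
  · exact absurd h.1 (h'.2.2 q h.2.1 h1)
  · exact h1
  · exact absurd h'.1 (h.2.2 q' h'.2.1 h1)

lemma Nx_mono {T : ℕ → Prop} {n n' q : ℕ} (h : Nx T n q) (h1 : n ≤ n') (h2 : n' < q) : Nx T n' q :=
  ⟨h.1, h2, fun m hm hm' => h.2.2 m (lt_of_le_of_lt h1 hm) hm'⟩

open Classical in
/-- The blocks in which the indicator of the next element changes. -/
lemma E1 (T : ℕ → Prop) (L R N : ℕ) :
    ∑ r ∈ range R, ∑ s ∈ Icc 1 L, ∑ n ∈ Icc 1 N,
      (if Nx T (n + (s - 1)) (n + (r * L + s)) ∧ ¬ Nx T n (n + (r * L + s)) then (1 : ℝ) else 0) ≤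
      L * (((Icc 1 (N + R * L)).filter T).card : ℝ) := by
  rw [sum_comm]
  have key : ∀ s ∈ Icc 1 L, ∑ r ∈ range R, ∑ n ∈ Icc 1 N,
      (if Nx T (n + (s - 1)) (n + (r * L + s)) ∧ ¬ Nx T n (n + (r * L + s)) then (1 : ℝ) else 0) ≤
      (((Icc 1 (N + R * L)).filter T).card : ℝ) := by
    intro s hs
    rw [mem_Icc] at hs
    rw [← sum_product' (s := range R) (t := Icc 1 N)
      (f := fun r n => (if Nx T (n + (s - 1)) (n + (r * L + s)) ∧ ¬ Nx T n (n + (r * L + s)) then (1 : ℝ) else 0))]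
    rw [sum_boole]
    norm_cast
    apply card_le_card_of_injOn (fun x : ℕ × ℕ => x.2 + (x.1 * L + s))
    · intro x hx
      simp only [coe_filter, Set.mem_ofPred_eq, mem_product, mem_range, mem_Icc] at hx
      simp only [coe_filter, Set.mem_ofPred_eq, mem_Icc]
      obtain ⟨⟨h1, h2⟩, h3, h4⟩ := hx
      refine ⟨⟨by omega, ?_⟩, h3.1⟩
      have h5 : x.1 * L + L ≤ R * L := by
        have := Nat.mul_le_mul_right L (Nat.succ_le_of_lt h1)
        rw [Nat.succ_mul] at this
        exact this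
      omega
    · have main : ∀ r n r' n' : ℕ, n + (r * L + s) = n' + (r' * L + s) → r < r' →
          ¬ Nx T n (n + (r * L + s)) → ¬ Nx T (n' + (s - 1)) (n' + (r' * L + s)) := by
        intro r n r' n' he hr h1 h2
        apply h1
        have h5 : r * L + L ≤ r' * L := by
          have := Nat.mul_le_mul_right L (Nat.succ_le_of_lt hr)
          rw [Nat.succ_mul] at this
          exact this
        rw [he]
        apply Nx_mono h2
        · omega
        · omega
      intro x hx y hy hxy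
      simp only [coe_filter, Set.mem_ofPred_eq, mem_product, mem_range, mem_Icc] at hx hy
      simp only at hxy
      rcases lt_trichotomy x.1 y.1 with h | h | h
      · exact absurd hy.2.1 (main _ _ _ _ hxy h hx.2.2)
      · refine Prod.ext h ?_
        rw [h] at hxy
        omega
      · exact absurd hx.2.1 (main _ _ _ _ hxy.symm h hy.2.2)
  calc ∑ s ∈ Icc 1 L, ∑ r ∈ range R, ∑ n ∈ Icc 1 N,
        (if Nx T (n + (s - 1)) (n + (r * L + s)) ∧ ¬ Nx T n (n + (r * L + s)) then (1 : ℝ) else 0)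
      ≤ ∑ s ∈ Icc 1 L, (((Icc 1 (N + R * L)).filter T).card : ℝ) := sum_le_sum key
    _ = L * (((Icc 1 (N + R * L)).filter T).card : ℝ) := by
        rw [sum_const, Nat.card_Icc, nsmul_eq_mul]
        norm_num

open Classical in
/-- The variation inside the blocks. -/
lemma E2 (T : ℕ → Prop) (L R N : ℕ) (v : ℕ → ℝ) (hv : ∀ i, 0 ≤ v i) :
    ∑ r ∈ range R, ∑ s ∈ Icc 1 L, ∑ n ∈ Icc 1 N,
      (if Nx T n (n + (r * L + s)) then ∑ i ∈ Ico n (n + (s - 1)), v i else 0) ≤
      L * ∑ i ∈ Icc 1 (N + L), v i := by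
  have e1 : ∀ r ∈ range R, ∀ s ∈ Icc 1 L, ∀ n ∈ Icc 1 N,
      (if Nx T n (n + (r * L + s)) then ∑ i ∈ Ico n (n + (s - 1)), v i else 0) =
      ∑ i ∈ Icc 1 (N + L), (if Nx T n (n + (r * L + s)) ∧ n ≤ i ∧ i < n + (s - 1) then v i else 0) := by
    intro r _ s hs n hn
    rw [mem_Icc] at hs hn
    by_cases h : Nx T n (n + (r * L + s))
    · simp only [h, if_true, true_and]
      rw [← sum_filter]
      apply sum_congr _ (fun _ _ => rfl)
      ext i
      simp only [mem_Ico, mem_filter, mem_Icc]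
      omega
    · simp only [h, if_false, false_and, sum_const_zero]
  calc ∑ r ∈ range R, ∑ s ∈ Icc 1 L, ∑ n ∈ Icc 1 N,
        (if Nx T n (n + (r * L + s)) then ∑ i ∈ Ico n (n + (s - 1)), v i else 0)
      = ∑ r ∈ range R, ∑ s ∈ Icc 1 L, ∑ n ∈ Icc 1 N, ∑ i ∈ Icc 1 (N + L),
          (if Nx T n (n + (r * L + s)) ∧ n ≤ i ∧ i < n + (s - 1) then v i else 0) :=
        sum_congr rfl fun r hr => sum_congr rfl fun s hs => sum_congr rfl fun n hn => e1 r hr s hs n hn
    _ = ∑ i ∈ Icc 1 (N + L), ∑ s ∈ Icc 1 L, ∑ r ∈ range R, ∑ n ∈ Icc 1 N,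
          (if Nx T n (n + (r * L + s)) ∧ n ≤ i ∧ i < n + (s - 1) then v i else 0) := by
        rw [sum_comm]
        have : ∀ s ∈ Icc 1 L, ∑ r ∈ range R, ∑ n ∈ Icc 1 N, ∑ i ∈ Icc 1 (N + L),
            (if Nx T n (n + (r * L + s)) ∧ n ≤ i ∧ i < n + (s - 1) then v i else 0) =
            ∑ i ∈ Icc 1 (N + L), ∑ r ∈ range R, ∑ n ∈ Icc 1 N,
            (if Nx T n (n + (r * L + s)) ∧ n ≤ i ∧ i < n + (s - 1) then v i else 0) := by
          intro s _
          rw [sum_congr rfl (fun r _ => sum_comm)]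
          exact sum_comm
        rw [sum_congr rfl this, sum_comm]
    _ ≤ ∑ i ∈ Icc 1 (N + L), ∑ s ∈ Icc 1 L, v i := by
        apply sum_le_sum
        intro i _
        apply sum_le_sum
        intro s hs
        rw [mem_Icc] at hs
        rw [← sum_product' (s := range R) (t := Icc 1 N)
          (f := fun r n => (if Nx T n (n + (r * L + s)) ∧ n ≤ i ∧ i < n + (s - 1) then v i else 0))]
        rw [← sum_filter, sum_const, nsmul_eq_mul]
        have hc : ((range R ×ˢ Icc 1 N).filter fun x : ℕ × ℕ =>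
            Nx T x.2 (x.2 + (x.1 * L + s)) ∧ x.2 ≤ i ∧ i < x.2 + (s - 1)).card ≤ 1 := by
          rw [card_le_one]
          intro x hx y hy
          simp only [mem_filter, mem_product, mem_range, mem_Icc] at hx hy
          obtain ⟨_, h1, h2, h3⟩ := hx
          obtain ⟨_, k1, k2, k3⟩ := hy
          have hq : x.2 + (x.1 * L + s) = y.2 + (y.1 * L + s) :=
            Nx_unique (Nx_mono h1 h2 (by omega)) (Nx_mono k1 k2 (by omega))
          have main : ∀ r n r' n' : ℕ, n + (r * L + s) = n' + (r' * L + s) → n ≤ i → i < n' + (s - 1) →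
              n' ≤ i → i < n + (s - 1) → ¬ r < r' := by
            intro r n r' n' he g1 g2 g3 g4 hr
            have h5 : r * L + L ≤ r' * L := by
              have := Nat.mul_le_mul_right L (Nat.succ_le_of_lt hr)
              rw [Nat.succ_mul] at this
              exact this
            omega
          have hr : x.1 = y.1 := by
            rcases lt_trichotomy x.1 y.1 with h | h | h
            · exact absurd h (main _ _ _ _ hq h2 k3 k2 h3)
            · exact h
            · exact absurd h (main _ _ _ _ hq.symm k2 h3 h2 k3)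
          refine Prod.ext hr ?_
          rw [hr] at hq
          omega
        have hc' : ((((range R ×ˢ Icc 1 N).filter fun x : ℕ × ℕ =>
            Nx T x.2 (x.2 + (x.1 * L + s)) ∧ x.2 ≤ i ∧ i < x.2 + (s - 1)).card : ℕ) : ℝ) ≤ 1 := by
          exact_mod_cast hc
        calc _ ≤ 1 * v i := mul_le_mul_of_nonneg_right hc' (hv i)
          _ = v i := one_mul _
    _ = L * ∑ i ∈ Icc 1 (N + L), v i := by
        rw [mul_sum]
        apply sum_congr rfl
        intro i _
        rw [sum_const, Nat.card_Icc, nsmul_eq_mul]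
        norm_num

/-- telescoping -/
lemma tele (Ψ : ℕ → ℂ) (n k : ℕ) : ‖Ψ n - Ψ (n + k)‖ ≤ ∑ i ∈ Ico n (n + k), ‖Ψ (i + 1) - Ψ i‖ := by
  induction k with
  | zero => simp
  | succ k ih =>
    rw [← add_assoc, sum_Ico_succ_top (by omega)]
    calc ‖Ψ n - Ψ (n + k + 1)‖ = ‖(Ψ n - Ψ (n + k)) - (Ψ (n + k + 1) - Ψ (n + k))‖ := by congr 1; ring
      _ ≤ _ := (norm_sub_le _ _).trans (by gcongr)

end Pool.Agent.H526.ND
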