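import Mathlib
import Pool.Agent.H526.ND.Comb

set_option autoImplicit false

namespace Pool.Agent.H526.ND

open Finset

lemma sum_blocks (F : ℕ → ℝ) (R L : ℕ) :
    ∑ j ∈ Icc 1 (R * L), F j = ∑ r ∈ range R, ∑ s ∈ Icc 1 L, F (r * L + s) := by
  induction R with
  | zero => simp
  | succ R ih =>
    rw [sum_range_succ, ← ih, Nat.succ_mul]
    have h1 : Icc 1 (R * L + L) = Icc 1 (R * L) ∪ Icc (R * L + 1) (R * L + L) := by
      ext j; simp only [mem_Icc, mem_union]; omega
    rw [h1, sum_union]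
    · congr 1
      refine sum_nbij' (fun j => j - R * L) (fun s => R * L + s) ?_ ?_ ?_ ?_ ?_
      · intro j hj; rw [mem_Icc] at hj ⊢; omega
      · intro j hj; rw [mem_Icc] at hj ⊢; omega
      · intro j hj; rw [mem_Icc] at hj; show R * L + (j - R * L) = j; omega
      · intro j hj; rw [mem_Icc] at hj; show R * L + j - R * L = j; omega
      · intro j hj; rw [mem_Icc] at hj; show F j = F (R * L + (j - R * L)); congr 1; omega
    · rw [disjoint_left]
      intro j hj hj'
      rw [mem_Icc] at hj hj'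
      omega

open Classical in
/-- Reduction to blocks. -/
lemma block (T : ℕ → Prop) (b Ψ lam : ℕ → ℂ) (hb : ∀ n, ‖b n‖ ≤ 1) (hΨ : ∀ n, ‖Ψ n‖ ≤ 1) (hl : ∀ n, ‖lam n‖ ≤ 1)
    (L R N : ℕ) :
    ∑ j ∈ Icc 1 (R * L), ‖∑ n ∈ Icc 1 N, (if Nx T n (n + j) then b (n + j) * Ψ n * lam n else 0)‖ ≤
    (∑ r ∈ range R, ∑ s ∈ Icc 1 L, ‖∑ n ∈ Icc 1 N, (if Nx T (n + (s - 1)) (n + (r * L + s)) then
        b (n + (r * L + s)) * Ψ (n + (s - 1)) * lam n else 0)‖) +
      (L * (((Icc 1 (N + R * L)).filter T).card : ℝ) + L * ∑ i ∈ Icc 1 (N + L), ‖Ψ (i + 1) - Ψ i‖) := by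
  rw [sum_blocks]
  refine le_trans ?_ (add_le_add le_rfl (add_le_add (E1 T L R N)
    (E2 T L R N (fun i => ‖Ψ (i + 1) - Ψ i‖) (fun i => norm_nonneg _))))
  rw [← sum_add_distrib, ← sum_add_distrib]
  apply sum_le_sum
  intro r _
  rw [← sum_add_distrib, ← sum_add_distrib]
  apply sum_le_sum
  intro s hs
  rw [mem_Icc] at hs
  rw [← sum_add_distrib]
  have e : ∀ n ∈ Icc 1 N, (if Nx T n (n + (r * L + s)) then b (n + (r * L + s)) * Ψ n * lam n else 0) =
      (if Nx T (n + (s - 1)) (n + (r * L + s)) then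
        b (n + (r * L + s)) * Ψ (n + (s - 1)) * lam n else 0) +
      ((if Nx T n (n + (r * L + s)) then b (n + (r * L + s)) * Ψ n * lam n else 0) -
        (if Nx T (n + (s - 1)) (n + (r * L + s)) then
        b (n + (r * L + s)) * Ψ (n + (s - 1)) * lam n else 0)) := fun n _ => by ring
  rw [sum_congr rfl e, sum_add_distrib]
  refine (norm_add_le _ _).trans (add_le_add le_rfl ((norm_sum_le _ _).trans (sum_le_sum ?_)))
  intro n _
  have hbl : ∀ z : ℂ, ‖b (n + (r * L + s)) * z * lam n‖ ≤ ‖z‖ := by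
    intro z
    rw [norm_mul, norm_mul]
    calc ‖b (n + (r * L + s))‖ * ‖z‖ * ‖lam n‖ ≤ 1 * ‖z‖ * 1 :=
          mul_le_mul (mul_le_mul_of_nonneg_right (hb _) (norm_nonneg _)) (hl _) (norm_nonneg _) (by positivity)
      _ = ‖z‖ := by ring
  by_cases h1 : Nx T n (n + (r * L + s))
  · have h2 : Nx T (n + (s - 1)) (n + (r * L + s)) := Nx_mono h1 (by omega) (by omega)
    simp only [h1, h2, if_true, not_true, and_false, if_false, zero_add]
    have e2 : b (n + (r * L + s)) * Ψ n * lam n - b (n + (r * L + s)) * Ψ (n + (s - 1)) * lam n =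
        b (n + (r * L + s)) * (Ψ n - Ψ (n + (s - 1))) * lam n := by ring
    rw [e2]
    exact (hbl _).trans (tele Ψ n (s - 1))
  · by_cases h2 : Nx T (n + (s - 1)) (n + (r * L + s))
    · simp only [h1, h2, if_true, if_false, not_false_iff, and_self, add_zero, zero_sub, norm_neg]
      exact (hbl _).trans (hΨ _)
    · simp only [h1, h2, if_false, false_and, sub_zero, norm_zero, add_zero, le_refl]

end Pool.Agent.H526.ND
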