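import Mathlib
import Pool.Graph.R_pool_sql_team_seeded_b677cdb8.E8helper16.SL.I4
import Pool.Agent.H526.ND.Block

set_option autoImplicit false

namespace Pool.Agent.H526.ND

open Finset Pool.Agent.E8helper16.SL

/-- the Liouville function as a complex number -/
noncomputable def lam (n : ℕ) : ℂ := (-1 : ℂ) ^ (ArithmeticFunction.cardFactors n)

lemma lam_norm (n : ℕ) : ‖lam n‖ ≤ 1 := by
  unfold lam
  rw [norm_pow, norm_neg, norm_one, one_pow]

open Classical in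
/-- The sum over a block, with the shifts reversed. -/
lemma reindex (T : ℕ → Prop) (b Ψ : ℕ → ℂ) (L R N M : ℕ) (hLN : L ≤ N) (hM : R * L + L ≤ M)
    (hT : ∀ q, T q → M < q) (r : ℕ) (hr : r < R) (s : ℕ) (hs : s ∈ Icc 1 L) :
    ∑ n ∈ Icc 1 N, (if Nx T (n + (s - 1)) (n + (r * L + s)) then
        b (n + (r * L + s)) * Ψ (n + (s - 1)) * lam n else 0) =
    ∑ n ∈ Icc 1 (N - (L + 1 - s)), (if Nx T (n + L) (n + (r * L + L + 1)) then
        b (n + (r * L + L + 1)) * Ψ (n + L) else 0) * lam (n + (L + 1 - s)) := by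
  rw [mem_Icc] at hs
  have h5 : r * L + L ≤ R * L := by
    have := Nat.mul_le_mul_right L (Nat.succ_le_of_lt hr)
    rw [Nat.succ_mul] at this
    exact this
  have e1 : ∑ n ∈ Icc 1 N, (if Nx T (n + (s - 1)) (n + (r * L + s)) then
        b (n + (r * L + s)) * Ψ (n + (s - 1)) * lam n else 0) =
      ∑ n ∈ Icc (1 + (L + 1 - s)) N, (if Nx T (n + (s - 1)) (n + (r * L + s)) then
        b (n + (r * L + s)) * Ψ (n + (s - 1)) * lam n else 0) := by
    symm
    apply sum_subset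
    · intro n hn
      rw [mem_Icc] at hn ⊢
      omega
    · intro n hn hn'
      rw [mem_Icc] at hn hn'
      rw [if_neg]
      intro h
      have := hT _ h.1
      omega
  rw [e1]
  refine sum_nbij' (fun n => n - (L + 1 - s)) (fun n => n + (L + 1 - s)) ?_ ?_ ?_ ?_ ?_
  · intro n hn; rw [mem_Icc] at hn ⊢; omega
  · intro n hn; rw [mem_Icc] at hn ⊢; omega
  · intro n hn; rw [mem_Icc] at hn; show n - (L + 1 - s) + (L + 1 - s) = n; omega
  · intro n hn; show n + (L + 1 - s) - (L + 1 - s) = n; omega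
  · intro n hn
    rw [mem_Icc] at hn
    have g1 : n - (L + 1 - s) + L = n + (s - 1) := by omega
    have g2 : n - (L + 1 - s) + (r * L + L + 1) = n + (r * L + s) := by omega
    have g3 : n - (L + 1 - s) + (L + 1 - s) = n := by omega
    show _ = (if Nx T (n - (L + 1 - s) + L) (n - (L + 1 - s) + (r * L + L + 1)) then
        b (n - (L + 1 - s) + (r * L + L + 1)) * Ψ (n - (L + 1 - s) + L) else 0) * lam (n - (L + 1 - s) + (L + 1 - s))
    rw [g1, g2, g3]
    split_ifs <;> ring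

/-- products of the von Mangoldt function at prime arguments -/
lemma prodV_ge {f : ℕ} (h : Fin f → ℕ) (q M : ℕ) (hM : 1 ≤ M) (hq : M < q) (hp : ∀ i, (q + h i).Prime) :
    Real.log M ^ f ≤ ∏ i, ArithmeticFunction.vonMangoldt (q + h i) := by
  have : Real.log M ^ f = ∏ _i : Fin f, Real.log M := by rw [prod_const, card_univ, Fintype.card_fin]
  rw [this]
  apply prod_le_prod
  · intro i _; exact Real.log_natCast_nonneg _
  · intro i _
    rw [ArithmeticFunction.vonMangoldt_apply_prime (hp i)]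
    apply Real.log_le_log (by exact_mod_cast hM)
    exact_mod_cast (by omega : M ≤ q + h i)

/-- The main sum of one block. -/
lemma mainBlock {f : ℕ} (hf : 1 ≤ f) (D : ℕ) (ε : ℝ) (hε : 0 < ε) : ∃ η : ℝ, 0 < η ∧ ∃ N₀ : ℕ, ∀ N : ℕ, N₀ ≤ N →
    ∀ L : ℕ, Real.log N ^ ((f : ℝ) - η) ≤ L → L ≤ N → ∀ h : Fin f → ℕ, Function.Injective h → (∀ i, h i ≤ D) →
    ∀ T : ℕ → Prop, ∀ M : ℕ, 2 ≤ M → (∀ q, T q → M < q ∧ ∀ i, (q + h i).Prime) → ∀ R : ℕ, R * L + L ≤ M → M + D + 1 ≤ N →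
    ∀ b Ψ : ℕ → ℂ, (∀ n, ‖b n‖ ≤ 1) → (∀ n, ‖Ψ n‖ ≤ 1) → ∀ r : ℕ, r < R → ∀ _ : DecidablePred T,
      ∑ s ∈ Icc 1 L, ‖∑ n ∈ Icc 1 N, (open Classical in if Nx T (n + (s - 1)) (n + (r * L + s)) then
        b (n + (r * L + s)) * Ψ (n + (s - 1)) * lam n else 0)‖ ≤ (Real.log M ^ f)⁻¹ * (ε * L * N) := by
  classical
  obtain ⟨η, hη, N₀, hN₀⟩ := finalSum f hf D ε hε
  refine ⟨η, hη, N₀, fun N hN L hL hLN h hh hhD T M hM hT R hR hMN b Ψ hb hΨ r hr _ => ?_⟩
  have h5 : r * L + L ≤ R * L := by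
    have := Nat.mul_le_mul_right L (Nat.succ_le_of_lt hr)
    rw [Nat.succ_mul] at this
    exact this
  obtain ⟨κ, hκ⟩ : ∃ κ : ℝ, κ = Real.log M ^ f := ⟨_, rfl⟩
  have hκ0 : 0 < κ := by
    rw [hκ]
    apply pow_pos
    exact Real.log_pos (by exact_mod_cast (by omega : 1 < M))
  obtain ⟨a, ha⟩ : ∃ a : Fin f → ℕ, a = fun i => r * L + L + 1 + h i := ⟨_, rfl⟩
  obtain ⟨G, hG⟩ : ∃ G : ℕ → ℂ, G = fun n => if Nx T (n + L) (n + (r * L + L + 1)) then
        b (n + (r * L + L + 1)) * Ψ (n + L) else 0 := ⟨_, rfl⟩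
  have hG1 : ∀ n, ‖G n‖ ≤ 1 := by
    intro n
    rw [hG]
    simp only
    split_ifs
    · rw [norm_mul]
      calc _ ≤ (1 : ℝ) * 1 := mul_le_mul (hb _) (hΨ _) (norm_nonneg _) zero_le_one
        _ = 1 := one_mul 1
    · simp
  have hG2 : ∀ n, G n ≠ 0 → κ ≤ ∏ i, ArithmeticFunction.vonMangoldt (n + a i) := by
    intro n hn
    have h1 : Nx T (n + L) (n + (r * L + L + 1)) := by
      by_contra h1
      apply hn
      rw [hG]
      simp only [h1, if_false]
    have h2 := hT _ h1.1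
    have h3 := prodV_ge h (n + (r * L + L + 1)) M (by omega) h2.1 h2.2
    rw [hκ]
    refine le_trans h3 (le_of_eq ?_)
    apply prod_congr rfl
    intro i _
    rw [ha]
    congr 1
    show n + (r * L + L + 1) + h i = n + (r * L + L + 1 + h i)
    omega
  obtain ⟨b', hb'⟩ : ∃ b' : ℕ → ℂ, b' = fun n => G n * ((κ / ∏ i, ArithmeticFunction.vonMangoldt (n + a i) : ℝ) : ℂ) :=
    ⟨_, rfl⟩
  have hb'1 : ∀ n, ‖b' n‖ ≤ 1 := by
    intro n
    rw [hb']
    simp only
    by_cases hn : G n = 0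
    · rw [hn, zero_mul, norm_zero]; exact zero_le_one
    · have h1 := hG2 n hn
      have h2 : (0 : ℝ) < ∏ i, ArithmeticFunction.vonMangoldt (n + a i) := lt_of_lt_of_le hκ0 h1
      rw [norm_mul, Complex.norm_real, Real.norm_of_nonneg (by positivity)]
      calc _ ≤ (1 : ℝ) * 1 := mul_le_mul (hG1 n) ((div_le_one h2).mpr h1) (by positivity) zero_le_one
        _ = 1 := one_mul 1
  have hb'2 : ∀ n, b' n * ((∏ i, ArithmeticFunction.vonMangoldt (n + a i) : ℝ) : ℂ) = (κ : ℂ) * G n := by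
    intro n
    rw [hb']
    simp only
    by_cases hn : G n = 0
    · rw [hn]; ring
    · have h1 := hG2 n hn
      have h2 : (0 : ℝ) < ∏ i, ArithmeticFunction.vonMangoldt (n + a i) := lt_of_lt_of_le hκ0 h1
      rw [mul_assoc, ← Complex.ofReal_mul, div_mul_cancel₀ _ h2.ne', mul_comm]
  have hmain := hN₀ N hN L hL hLN a (fun i j hij => hh (by rw [ha] at hij; simp only at hij; omega))
    (fun i => by rw [ha]; have := hhD i; simp only; omega)
    (fun i l => by rw [ha]; have := hhD i; simp only; omega) 0 (Nat.zero_le _) b' hb'1 (fun t => N - t)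
    (fun t => Nat.sub_le _ _)
  have e1 : ∀ s ∈ Icc 1 L, ‖∑ n ∈ Icc 1 N, (if Nx T (n + (s - 1)) (n + (r * L + s)) then
        b (n + (r * L + s)) * Ψ (n + (s - 1)) * lam n else 0)‖ = κ⁻¹ * ‖SX a b' (N - (L + 1 - s)) (0 + (L + 1 - s))‖ := by
    intro s hs
    rw [reindex T b Ψ L R N M hLN hR (fun q hq => (hT q hq).1) r hr s hs]
    rw [mem_Icc] at hs
    have e2 : SX a b' (N - (L + 1 - s)) (0 + (L + 1 - s)) = (κ : ℂ) * ∑ n ∈ Icc 1 (N - (L + 1 - s)),
        (if Nx T (n + L) (n + (r * L + L + 1)) then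
        b (n + (r * L + L + 1)) * Ψ (n + L) else 0) * lam (n + (L + 1 - s)) := by
      unfold SX
      rw [mul_sum]
      apply sum_congr rfl
      intro n hn
      rw [mem_Icc] at hn
      rw [hb'2, lz_nat _ (by omega), hG, zero_add, mul_assoc]
      rfl
    rw [e2, norm_mul, Complex.norm_real, Real.norm_of_nonneg hκ0.le, ← mul_assoc, inv_mul_cancel₀ hκ0.ne', one_mul]
  rw [sum_congr rfl e1, ← mul_sum, ← hκ]
  apply mul_le_mul_of_nonneg_left _ (inv_nonneg.mpr hκ0.le)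
  refine le_trans (le_of_eq ?_) hmain
  refine sum_nbij' (fun s => L + 1 - s) (fun s => L + 1 - s) ?_ ?_ ?_ ?_ ?_
  · intro n hn; rw [mem_Icc] at hn ⊢; omega
  · intro n hn; rw [mem_Icc] at hn ⊢; omega
  · intro n hn; rw [mem_Icc] at hn; show L + 1 - (L + 1 - n) = n; omega
  · intro n hn; rw [mem_Icc] at hn; show L + 1 - (L + 1 - n) = n; omega
  · intro n hn; rfl

end Pool.Agent.H526.ND
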