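import Mathlib
import Pool.Graph.R_pool_sql_team_seeded_b677cdb8.E8helper16.SL.I4
import Pool.Agent.H526.ND.Main

set_option autoImplicit false

namespace Pool.Agent.H526.ND

open Finset Pool.Agent.E8helper16.SL Filter

/-- the upper bound sieve -/
lemma cardT {f : ℕ} (hf : 1 ≤ f) (D : ℕ) : ∃ C7 : ℝ, 1 ≤ C7 ∧ ∃ N₀ : ℕ, ∀ N : ℕ, N₀ ≤ N → ∀ h : Fin f → ℕ,
    Function.Injective h → (∀ i, h i ≤ D) → ∀ T : ℕ → Prop, ∀ _ : DecidablePred T, ∀ M : ℕ, 2 ≤ M →
    (∀ q, T q → M < q ∧ ∀ i, (q + h i).Prime) → (((Icc 1 N).filter T).card : ℝ) * Real.log M ^ f ≤ C7 * N := by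
  obtain ⟨C6, hC6, hs⟩ := LL_sum f hf D
  obtain ⟨N₀, hs⟩ := hs 1 one_pos
  refine ⟨C6, hC6, N₀ + D, fun N hN h hh hhD T _ M hM hT => ?_⟩
  have h1 := hs N (by omega) N (by rw [one_mul]) le_rfl (fun i => (h i : ℤ) + ((0 : ℕ) : ℤ))
    (sep_of hh (fun i l => by have := hhD i; omega) _) (by
      intro i
      have q1 : (0 : ℤ) ≤ (h i : ℤ) + ((0 : ℕ) : ℤ) := by positivity
      rw [abs_of_nonneg q1]
      have q2 := hhD i
      push_cast
      omega)
  refine le_trans ?_ h1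
  have h2 : ∑ n ∈ (Icc 1 N).filter T, Real.log M ^ f ≤ ∑ n ∈ Icc 1 N, LL (fun i => (h i : ℤ) + ((0 : ℕ) : ℤ)) (n : ℤ) := by
    refine le_trans (sum_le_sum ?_) (sum_le_sum_of_subset_of_nonneg (filter_subset T _)
      (fun n _ _ => LL_nonneg _ _))
    intro n hn
    rw [mem_filter, mem_Icc] at hn
    have h3 := hT n hn.2
    have h4 := prodV_ge h n M (by omega) h3.1 h3.2
    refine le_trans h4 (le_of_eq ?_)
    unfold LL vz
    apply prod_congr rfl
    intro i _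
    congr 1
  rw [sum_const, nsmul_eq_mul] at h2
  exact h2

/-- the set of the tuples -/
def Tup (H : Finset ℕ) (m : ℕ) : Prop := ∀ a ∈ H, (m + a).Prime

open Classical in
lemma one_per (T : ℕ → Prop) (n J : ℕ) : ∑ j ∈ Icc 1 J, (if Nx T n (n + j) then (1 : ℝ) else 0) ≤ 1 := by
  rw [sum_boole]
  have : ((Icc 1 J).filter fun j => Nx T n (n + j)).card ≤ 1 := by
    rw [card_le_one]
    intro a ha b hb
    rw [mem_filter] at ha hb
    have := Nx_unique ha.2 hb.2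
    omega
  exact_mod_cast this

open Classical in
/-- Removing the elements up to `M`. -/
lemma cutoff (T : ℕ → Prop) (M J N : ℕ) (F : ℕ → ℕ → ℂ) (hF : ∀ n j, ‖F n j‖ ≤ 1) :
    ∑ j ∈ Icc 1 J, ‖∑ n ∈ Icc 1 N, (if Nx T n (n + j) then F n j else 0)‖ ≤
    ∑ j ∈ Icc 1 J, ‖∑ n ∈ Icc 1 N, (if Nx (fun q => T q ∧ M < q) n (n + j) then F n j else 0)‖ + 2 * M := by
  have e : ∀ j ∈ Icc 1 J, ‖∑ n ∈ Icc 1 N, (if Nx T n (n + j) then F n j else 0)‖ ≤
      ‖∑ n ∈ Icc 1 N, (if Nx (fun q => T q ∧ M < q) n (n + j) then F n j else 0)‖ +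
      ∑ n ∈ Icc 1 M, ((if Nx T n (n + j) then (1 : ℝ) else 0) +
        (if Nx (fun q => T q ∧ M < q) n (n + j) then (1 : ℝ) else 0)) := by
    intro j hj
    have e1 : ∀ n ∈ Icc 1 N, (if Nx T n (n + j) then F n j else 0) =
        (if Nx (fun q => T q ∧ M < q) n (n + j) then F n j else 0) + ((if Nx T n (n + j) then F n j else 0) -
        (if Nx (fun q => T q ∧ M < q) n (n + j) then F n j else 0)) := fun n _ => by ring
    rw [sum_congr rfl e1, sum_add_distrib]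
    refine (norm_add_le _ _).trans (add_le_add le_rfl ((norm_sum_le _ _).trans ?_))
    have e2 : ∀ n ∈ Icc 1 N, n ∉ Icc 1 M → ‖(if Nx T n (n + j) then F n j else 0) -
        (if Nx (fun q => T q ∧ M < q) n (n + j) then F n j else 0)‖ = 0 := by
      intro n hn hn'
      rw [mem_Icc] at hn hn'
      have : Nx T n (n + j) ↔ Nx (fun q => T q ∧ M < q) n (n + j) := by
        constructor
        · rintro ⟨h1, h2, h3⟩
          exact ⟨⟨h1, by omega⟩, h2, fun m hm hm' hT => h3 m hm hm' hT.1⟩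
        · rintro ⟨h1, h2, h3⟩
          exact ⟨h1.1, h2, fun m hm hm' hT => h3 m hm hm' ⟨hT, by omega⟩⟩
      simp only [this, sub_self, norm_zero]
    calc ∑ n ∈ Icc 1 N, ‖(if Nx T n (n + j) then F n j else 0) -
        (if Nx (fun q => T q ∧ M < q) n (n + j) then F n j else 0)‖
        ≤ ∑ n ∈ Icc 1 N ∪ Icc 1 M, ‖(if Nx T n (n + j) then F n j else 0) -
        (if Nx (fun q => T q ∧ M < q) n (n + j) then F n j else 0)‖ :=
          sum_le_sum_of_subset_of_nonneg subset_union_left (fun _ _ _ => norm_nonneg _)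
      _ = ∑ n ∈ Icc 1 M, ‖(if Nx T n (n + j) then F n j else 0) -
        (if Nx (fun q => T q ∧ M < q) n (n + j) then F n j else 0)‖ := by
          symm
          apply sum_subset subset_union_right
          intro n hn hn'
          rw [mem_union] at hn
          exact e2 n (by tauto) hn'
      _ ≤ _ := by
          apply sum_le_sum
          intro n _
          refine (norm_sub_le _ _).trans (add_le_add ?_ ?_)
          · split_ifs
            · exact hF _ _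
            · simp
          · split_ifs
            · exact hF _ _
            · simp
  refine (sum_le_sum e).trans ?_
  rw [sum_add_distrib]
  apply add_le_add le_rfl
  rw [sum_comm]
  calc ∑ n ∈ Icc 1 M, ∑ j ∈ Icc 1 J, ((if Nx T n (n + j) then (1 : ℝ) else 0) +
        (if Nx (fun q => T q ∧ M < q) n (n + j) then (1 : ℝ) else 0))
      ≤ ∑ n ∈ Icc 1 M, (2 : ℝ) := by
        apply sum_le_sum
        intro n _
        rw [sum_add_distrib]
        have h1 := one_per T n J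
        have h2 := one_per (fun q => T q ∧ M < q) n J
        linarith
    _ = 2 * M := by
        rw [sum_const, Nat.card_Icc, nsmul_eq_mul]
        norm_num [mul_comm]

/-- eventual bounds -/
lemma evs (f : ℕ) (hf : 1 ≤ f) (η : ℝ) (hη : 0 < η) (δ : ℝ) (hδ : 0 < δ) (C : ℝ) (hC : 0 ≤ C) (D : ℕ) : ∀ᶠ N : ℕ in atTop,
    1 ≤ Real.log N ∧ Real.log N ^ ((f : ℝ) - η) + 1 ≤ δ * Real.log N ^ f ∧ 10 ≤ N ∧
    Real.log N / 3 ≤ Real.log (Nat.sqrt N : ℕ) ∧ C * Real.log N ^ f + 2 * (δ * Real.log N ^ f) ≤ (Nat.sqrt N : ℕ) ∧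
    Nat.sqrt N + D + 1 ≤ N ∧ 2 * (δ * Real.log N ^ f) * (δ * Real.log N ^ f) ≤ δ * N ∧ (2 : ℝ) * (Nat.sqrt N : ℕ) ≤ δ * N := by
  have hlog : Tendsto (fun N : ℕ => Real.log N) atTop atTop := Real.tendsto_log_atTop.comp tendsto_natCast_atTop_atTop
  have hf0 : (0 : ℝ) < f := by exact_mod_cast hf
  -- rpow comparison
  have t1 : Tendsto (fun N : ℕ => Real.log N ^ (-η)) atTop (nhds 0) :=
    (tendsto_rpow_neg_atTop hη).comp hlog
  have t2 : Tendsto (fun N : ℕ => Real.log N ^ f) atTop atTop := (tendsto_pow_atTop (by omega)).comp hlog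
  have t3 : Tendsto (fun N : ℕ => Real.log N ^ (2 * f) / (N : ℝ)) atTop (nhds 0) := by
    have := (isLittleO_log_rpow_rpow_atTop (2 * f : ℝ) (one_pos : (0 : ℝ) < 1)).tendsto_div_nhds_zero
    have h2 := this.comp tendsto_natCast_atTop_atTop (α := ℕ)
    refine h2.congr (fun N => ?_)
    simp only [Function.comp, Real.rpow_one]
    congr 1
    have : ((2 : ℝ) * f) = ((2 * f : ℕ) : ℝ) := by push_cast; ring
    rw [this, Real.rpow_natCast]
  have t4 : Tendsto (fun N : ℕ => Real.log N ^ f / (N : ℝ) ^ ((1 : ℝ) / 2)) atTop (nhds 0) := by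
    have := (isLittleO_log_rpow_rpow_atTop (f : ℝ) (by norm_num : (0 : ℝ) < 1 / 2)).tendsto_div_nhds_zero
    have h2 := this.comp tendsto_natCast_atTop_atTop (α := ℕ)
    refine h2.congr (fun N => ?_)
    simp only [Function.comp]
    congr 1
    rw [Real.rpow_natCast]
  have t5 : Tendsto (fun N : ℕ => (N : ℝ) ^ (-(1 / 2 : ℝ))) atTop (nhds 0) :=
    (tendsto_rpow_neg_atTop (by norm_num : (0 : ℝ) < 1 / 2)).comp tendsto_natCast_atTop_atTop
  have k1 : ∀ᶠ N : ℕ in atTop, Real.log N ^ (-η) ≤ δ / 2 := (t1.eventually_lt_const (by positivity)).mono fun _ h => h.le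
  have k2 : ∀ᶠ N : ℕ in atTop, 2 / δ ≤ Real.log N ^ f := t2.eventually_ge_atTop _
  have k3 : ∀ᶠ N : ℕ in atTop, Real.log N ^ (2 * f) / (N : ℝ) ≤ 1 / (2 * δ) :=
    (t3.eventually_lt_const (by positivity)).mono fun _ h => h.le
  have k4 : ∀ᶠ N : ℕ in atTop, Real.log N ^ f / (N : ℝ) ^ ((1 : ℝ) / 2) ≤ 1 / (2 * (C + 2 * δ + 1)) :=
    (t4.eventually_lt_const (by positivity)).mono fun _ h => h.le
  have k5 : ∀ᶠ N : ℕ in atTop, (N : ℝ) ^ (-(1 / 2 : ℝ)) ≤ δ / 2 := (t5.eventually_lt_const (by positivity)).mono fun _ h => h.le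
  filter_upwards [hlog.eventually_ge_atTop 6, k1, k2, k3, k4, k5, eventually_ge_atTop (2 * D + 100)] with
    N h1 h2 h3 h4 h5 h6 h7
  have hN0 : (0 : ℝ) < N := by exact_mod_cast (by omega : 0 < N)
  have hl0 : 0 < Real.log N := by linarith
  have hsq : (Nat.sqrt N : ℝ) ≤ (N : ℝ) ^ ((1 : ℝ) / 2) := by
    rw [← Real.sqrt_eq_rpow]
    exact Real.nat_sqrt_le_real_sqrt
  have hsq2 : (N : ℝ) ^ ((1 : ℝ) / 2) ≤ Nat.sqrt N + 1 := by
    rw [← Real.sqrt_eq_rpow]
    exact Real.real_sqrt_le_nat_sqrt_succ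
  have hs1 : 1 ≤ Nat.sqrt N := by
    rw [Nat.le_sqrt]
    omega
  have hs1' : (1 : ℝ) ≤ Nat.sqrt N := by exact_mod_cast hs1
  have hhalf : (N : ℝ) ^ ((1 : ℝ) / 2) / 2 ≤ Nat.sqrt N := by linarith
  have hmul : (N : ℝ) ^ ((1 : ℝ) / 2) = (N : ℝ) * (N : ℝ) ^ (-(1 / 2 : ℝ)) := by
    nth_rw 2 [← Real.rpow_one (N : ℝ)]
    rw [← Real.rpow_add hN0]
    norm_num
  refine ⟨by linarith, ?_, by omega, ?_, ?_, ?_, ?_, ?_⟩
  · have e1 : Real.log N ^ ((f : ℝ) - η) = Real.log N ^ f * Real.log N ^ (-η) := by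
      rw [← Real.rpow_natCast, ← Real.rpow_add hl0, sub_eq_add_neg]
    rw [e1]
    have hp : 0 < Real.log N ^ f := by positivity
    have e2 : Real.log N ^ f * Real.log N ^ (-η) ≤ Real.log N ^ f * (δ / 2) := mul_le_mul_of_nonneg_left h2 hp.le
    have e3 : 1 ≤ Real.log N ^ f * (δ / 2) := by
      have := mul_le_mul_of_nonneg_right h3 (by positivity : (0 : ℝ) ≤ δ / 2)
      have e4 : 2 / δ * (δ / 2) = 1 := by field_simp
      linarith
    linarith
  · have e1 : Real.log ((N : ℝ) ^ ((1 : ℝ) / 2) / 2) ≤ Real.log (Nat.sqrt N : ℕ) :=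
      Real.log_le_log (by positivity) hhalf
    rw [Real.log_div (by positivity) (by norm_num), Real.log_rpow hN0] at e1
    have e2 : Real.log 2 ≤ 1 := by
      have := Real.log_two_lt_d9
      linarith
    linarith
  · have hp : 0 < (N : ℝ) ^ ((1 : ℝ) / 2) := by positivity
    rw [div_le_iff₀ hp] at h5
    have hK : 0 < C + 2 * δ + 1 := by positivity
    have e1 : (C + 2 * δ) * Real.log N ^ f ≤ (C + 2 * δ + 1) * Real.log N ^ f := by
      apply mul_le_mul_of_nonneg_right (by linarith) (by positivity)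
    have e2 : (C + 2 * δ + 1) * Real.log N ^ f ≤ (C + 2 * δ + 1) * (1 / (2 * (C + 2 * δ + 1)) * (N : ℝ) ^ ((1 : ℝ) / 2)) :=
      mul_le_mul_of_nonneg_left h5 hK.le
    have e3 : (C + 2 * δ + 1) * (1 / (2 * (C + 2 * δ + 1)) * (N : ℝ) ^ ((1 : ℝ) / 2)) = (N : ℝ) ^ ((1 : ℝ) / 2) / 2 := by
      field_simp
    linarith
  · have h8 : Nat.sqrt N * Nat.sqrt N ≤ N := Nat.sqrt_le N
    have h9 : 10 ≤ Nat.sqrt N := by
      rw [Nat.le_sqrt]
      omega
    have h10 : 10 * Nat.sqrt N ≤ N := le_trans (Nat.mul_le_mul_right _ h9) h8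
    omega
  · rw [div_le_iff₀ hN0] at h4
    have e1 : 2 * (δ * Real.log N ^ f) * (δ * Real.log N ^ f) = 2 * δ ^ 2 * Real.log N ^ (2 * f) := by ring
    rw [e1]
    have e2 : 2 * δ ^ 2 * Real.log N ^ (2 * f) ≤ 2 * δ ^ 2 * (1 / (2 * δ) * N) :=
      mul_le_mul_of_nonneg_left h4 (by positivity)
    have e3 : 2 * δ ^ 2 * (1 / (2 * δ) * N) = δ * N := by field_simp
    linarith
  · have e1 : (N : ℝ) * (N : ℝ) ^ (-(1 / 2 : ℝ)) ≤ N * (δ / 2) := mul_le_mul_of_nonneg_left h6 hN0.le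
    linarith

end Pool.Agent.H526.ND
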