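import Mathlib
import Pool.Agent.H526.ND.Fin

set_option autoImplicit false

namespace Pool.Agent.H526.ND

open Finset Filter

open Classical in
/-- The theorem with an enumerated tuple. -/
theorem last {f : ℕ} (hf : 1 ≤ f) (h : Fin f → ℕ) (hh : Function.Injective h) (T : ℕ → Prop)
    (hT : ∀ q, T q → ∀ i, (q + h i).Prime) (C V ε : ℝ) (hC : 0 ≤ C) (hV : 0 ≤ V) (hε : 0 < ε) : ∃ N₀ : ℕ, ∀ N : ℕ, N₀ ≤ N →
    ∀ b Ψ : ℕ → ℂ, (∀ n, ‖b n‖ ≤ 1) → (∀ n, ‖Ψ n‖ ≤ 1) →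
      ∑ n ∈ Icc 1 N, ‖Ψ (n + 1) - Ψ n‖ ≤ V * N / Real.log N ^ f →
      ∑ j ∈ Icc 1 ⌊C * Real.log N ^ f⌋₊, ‖∑ n ∈ Icc 1 N, (if Nx T n (n + j) then b (n + j) * Ψ n * lam n else 0)‖ ≤ ε * N := by
  obtain ⟨D, hD⟩ : ∃ D : ℕ, ∀ i, h i ≤ D := ⟨univ.sup h, fun i => le_sup (mem_univ i)⟩
  obtain ⟨C7, hC7, N₁, hcard⟩ := cardT hf D
  have h3 : (0 : ℝ) < 3 ^ f := by positivity
  obtain ⟨ε', hε'⟩ : ∃ ε' : ℝ, ε' = ε / (8 * 3 ^ f * (C + 1)) := ⟨_, rfl⟩
  have hε'0 : 0 < ε' := by rw [hε']; positivity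
  have hε'1 : 3 ^ f * (C + 1) * ε' = ε / 8 := by rw [hε']; field_simp
  obtain ⟨η, hη, N₂, hmain⟩ := mainBlock hf D ε' hε'0
  obtain ⟨δ, hδ⟩ : ∃ δ : ℝ, δ = min 1 (ε / (16 * 3 ^ f * C7 * (V + 1))) := ⟨_, rfl⟩
  have hδ0 : 0 < δ := by
    rw [hδ]
    apply lt_min one_pos
    positivity
  have hδ1 : δ ≤ 1 := by rw [hδ]; exact min_le_left _ _
  have hδ2 : δ * (16 * 3 ^ f * C7 * (V + 1)) ≤ ε := by
    have : δ ≤ ε / (16 * 3 ^ f * C7 * (V + 1)) := by rw [hδ]; exact min_le_right _ _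
    rwa [le_div_iff₀ (by positivity)] at this
  obtain ⟨N₃, hN₃⟩ := eventually_atTop.mp (evs f hf η hη δ hδ0 C hC D)
  refine ⟨N₁ + N₂ + N₃, fun N hN b Ψ hb hΨ hvar => ?_⟩
  obtain ⟨g1, g2, g3, g4, g5, g6, g7, g8⟩ := hN₃ N (by omega)
  obtain ⟨M, hM⟩ : ∃ M : ℕ, M = Nat.sqrt N := ⟨_, rfl⟩
  rw [← hM] at g4 g5 g6 g8
  obtain ⟨Q, hQ⟩ : ∃ Q : ℝ, Q = Real.log N ^ f := ⟨_, rfl⟩
  rw [← hQ] at g2 g5 g7 hvar ⊢
  have hQ1 : 1 ≤ Q := by rw [hQ]; exact one_le_pow₀ g1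
  have hN0 : (0 : ℝ) < N := by exact_mod_cast (by omega : 0 < N)
  obtain ⟨L, hL⟩ : ∃ L : ℕ, L = ⌈Real.log N ^ ((f : ℝ) - η)⌉₊ := ⟨_, rfl⟩
  have hL1 : Real.log N ^ ((f : ℝ) - η) ≤ L := by rw [hL]; exact Nat.le_ceil _
  have hL0 : 1 ≤ L := by
    rw [hL]
    apply Nat.ceil_pos.mpr
    apply Real.rpow_pos_of_pos
    linarith
  have hL2 : (L : ℝ) ≤ δ * Q := by
    have : (L : ℝ) < Real.log N ^ ((f : ℝ) - η) + 1 := by
      rw [hL]
      exact Nat.ceil_lt_add_one (Real.rpow_nonneg (by linarith) _)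
    linarith
  obtain ⟨J, hJ⟩ : ∃ J : ℕ, J = ⌊C * Q⌋₊ := ⟨_, rfl⟩
  have hJ1 : (J : ℝ) ≤ C * Q := by rw [hJ]; exact Nat.floor_le (by positivity)
  obtain ⟨R, hR⟩ : ∃ R : ℕ, R = J / L + 1 := ⟨_, rfl⟩
  have hR1 : J ≤ R * L := by
    rw [hR, Nat.succ_mul]
    have := Nat.div_add_mod J L
    have h5 := Nat.mod_lt J (by omega : 0 < L)
    rw [mul_comm] at this
    omega
  have hR2 : R * L ≤ J + L := by
    rw [hR, Nat.succ_mul]
    have := Nat.div_mul_le_self J L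
    omega
  have hRM : R * L + L ≤ M := by
    have : ((J + 2 * L : ℕ) : ℝ) ≤ (M : ℝ) := by
      push_cast
      linarith
    have h5 : J + 2 * L ≤ M := by exact_mod_cast this
    omega
  have hLN : L ≤ N := by omega
  have hM2 : 2 ≤ M := by
    rw [hM, Nat.le_sqrt]
    omega
  have hlM : Q ≤ 3 ^ f * Real.log M ^ f := by
    rw [hQ, ← mul_pow]
    apply pow_le_pow_left₀ (by linarith)
    linarith
  have hlM0 : 0 < Real.log M ^ f := by
    apply pow_pos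
    exact Real.log_pos (by exact_mod_cast (by omega : 1 < M))
  obtain ⟨T', hT'⟩ : ∃ T' : ℕ → Prop, T' = fun q => T q ∧ M < q := ⟨_, rfl⟩
  have hT'1 : ∀ q, T' q → M < q ∧ ∀ i, (q + h i).Prime := by
    intro q hq
    rw [hT'] at hq
    exact ⟨hq.2, hT q hq.1⟩
  have c1 := cutoff T M J N (fun n j => b (n + j) * Ψ n * lam n) (fun n j => by
    rw [norm_mul, norm_mul]
    calc ‖b (n + j)‖ * ‖Ψ n‖ * ‖lam n‖ ≤ 1 * 1 * 1 :=
          mul_le_mul (mul_le_mul (hb _) (hΨ _) (norm_nonneg _) zero_le_one) (lam_norm _) (norm_nonneg _) (by norm_num)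
      _ = 1 := by norm_num)
  rw [← hT'] at c1
  rw [← hJ]
  refine c1.trans ?_
  have c2 : ∑ j ∈ Icc 1 J, ‖∑ n ∈ Icc 1 N, (if Nx T' n (n + j) then b (n + j) * Ψ n * lam n else 0)‖ ≤
      ∑ j ∈ Icc 1 (R * L), ‖∑ n ∈ Icc 1 N, (if Nx T' n (n + j) then b (n + j) * Ψ n * lam n else 0)‖ :=
    sum_le_sum_of_subset_of_nonneg (Icc_subset_Icc le_rfl hR1) (fun _ _ _ => norm_nonneg _)
  have c3 := block T' b Ψ lam hb hΨ lam_norm L R N
  have c4 : ∑ r ∈ range R, ∑ s ∈ Icc 1 L, ‖∑ n ∈ Icc 1 N, (if Nx T' (n + (s - 1)) (n + (r * L + s)) then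
        b (n + (r * L + s)) * Ψ (n + (s - 1)) * lam n else 0)‖ ≤ R * ((Real.log M ^ f)⁻¹ * (ε' * L * N)) := by
    calc _ ≤ ∑ r ∈ range R, (Real.log M ^ f)⁻¹ * (ε' * L * N) := by
          apply sum_le_sum
          intro r hr
          rw [mem_range] at hr
          exact hmain N (by omega) L hL1 hLN h hh hD T' M hM2 hT'1 R hRM g6 b Ψ hb hΨ r hr (fun _ => Classical.propDecidable _)
      _ = _ := by rw [sum_const, card_range, nsmul_eq_mul]
  have c5 : (R : ℝ) * ((Real.log M ^ f)⁻¹ * (ε' * L * N)) ≤ ε / 8 * N := by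
    have e1 : (R : ℝ) * L ≤ (C + 1) * Q := by
      have : ((R * L : ℕ) : ℝ) ≤ ((J + L : ℕ) : ℝ) := by exact_mod_cast hR2
      push_cast at this
      have e2 : δ * Q ≤ 1 * Q := mul_le_mul_of_nonneg_right hδ1 (by linarith)
      linarith
    have e2 : (R : ℝ) * L ≤ (C + 1) * (3 ^ f * Real.log M ^ f) :=
      e1.trans (mul_le_mul_of_nonneg_left hlM (by linarith))
    have e3 : (R : ℝ) * ((Real.log M ^ f)⁻¹ * (ε' * L * N)) = (R * L) * ((Real.log M ^ f)⁻¹ * (ε' * N)) := by ring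
    rw [e3]
    calc (R * L : ℝ) * ((Real.log M ^ f)⁻¹ * (ε' * N))
        ≤ ((C + 1) * (3 ^ f * Real.log M ^ f)) * ((Real.log M ^ f)⁻¹ * (ε' * N)) :=
          mul_le_mul_of_nonneg_right e2 (by positivity)
      _ = (3 ^ f * (C + 1) * ε') * N * (Real.log M ^ f * (Real.log M ^ f)⁻¹) := by ring
      _ = ε / 8 * N := by rw [mul_inv_cancel₀ hlM0.ne', hε'1]; ring
  have c6 : (L : ℝ) * (((Icc 1 (N + R * L)).filter T').card : ℝ) ≤ ε / 8 * N := by
    have e0 : (((Icc 1 (N + R * L)).filter T').card : ℝ) ≤ (((Icc 1 (2 * N)).filter T').card : ℝ) := by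
      have : ((Icc 1 (N + R * L)).filter T').card ≤ ((Icc 1 (2 * N)).filter T').card := by
        apply card_le_card
        apply filter_subset_filter
        apply Icc_subset_Icc le_rfl
        omega
      exact_mod_cast this
    have e1 := hcard (2 * N) (by omega) h hh hD T' (fun _ => Classical.propDecidable _) M hM2 hT'1
    have e2 : (((Icc 1 (2 * N)).filter T').card : ℝ) ≤ 3 ^ f * (C7 * (2 * N)) / Q := by
      rw [le_div_iff₀ (by linarith)]
      push_cast at e1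
      calc (((Icc 1 (2 * N)).filter T').card : ℝ) * Q
          ≤ (((Icc 1 (2 * N)).filter T').card : ℝ) * (3 ^ f * Real.log M ^ f) :=
            mul_le_mul_of_nonneg_left hlM (Nat.cast_nonneg _)
        _ = 3 ^ f * ((((Icc 1 (2 * N)).filter T').card : ℝ) * Real.log M ^ f) := by ring
        _ ≤ 3 ^ f * (C7 * (2 * N)) := by
            apply mul_le_mul_of_nonneg_left _ h3.le
            convert e1 using 2
    calc (L : ℝ) * (((Icc 1 (N + R * L)).filter T').card : ℝ) ≤ (δ * Q) * (3 ^ f * (C7 * (2 * N)) / Q) :=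
          mul_le_mul hL2 (e0.trans e2) (Nat.cast_nonneg _) (by positivity)
      _ = 2 * (δ * 3 ^ f * C7) * N := by field_simp
      _ ≤ ε / 8 * N := by
          apply mul_le_mul_of_nonneg_right _ hN0.le
          have e3 : 0 ≤ δ * 3 ^ f * C7 * V := by positivity
          linarith
  have c7 : (L : ℝ) * ∑ i ∈ Icc 1 (N + L), ‖Ψ (i + 1) - Ψ i‖ ≤ ε / 8 * N + ε / 8 * N := by
    have e1 : ∑ i ∈ Icc 1 (N + L), ‖Ψ (i + 1) - Ψ i‖ ≤ V * N / Q + 2 * L := by
      have h1 : Icc 1 (N + L) = Icc 1 N ∪ Icc (N + 1) (N + L) := by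
        ext j; simp only [mem_Icc, mem_union]; omega
      rw [h1, sum_union]
      · apply add_le_add hvar
        calc _ ≤ ∑ i ∈ Icc (N + 1) (N + L), (2 : ℝ) := by
              apply sum_le_sum
              intro i _
              refine (norm_sub_le _ _).trans ?_
              have := hΨ (i + 1)
              have := hΨ i
              linarith
          _ = 2 * L := by
              rw [sum_const, Nat.card_Icc, nsmul_eq_mul]
              have : N + L + 1 - (N + 1) = L := by omega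
              rw [this]
              ring
      · rw [disjoint_left]
        intro j hj hj'
        rw [mem_Icc] at hj hj'
        omega
    have e2 : (L : ℝ) * (V * N / Q + 2 * L) ≤ (δ * Q) * (V * N / Q + 2 * (δ * Q)) := by
      apply mul_le_mul hL2 _ (by positivity) (by positivity)
      linarith
    have e3 : (δ * Q) * (V * N / Q + 2 * (δ * Q)) = δ * V * N + 2 * (δ * Q) * (δ * Q) := by
      field_simp
    have e4 : δ * V * N ≤ ε / 8 * N := by
      apply mul_le_mul_of_nonneg_right _ hN0.le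
      have e5 : δ * V ≤ δ * (16 * 3 ^ f * C7 * (V + 1)) / 8 := by
        have k1 : (1 : ℝ) ≤ 3 ^ f := one_le_pow₀ (by norm_num)
        have k2 : (1 : ℝ) * 1 ≤ 3 ^ f * C7 := mul_le_mul k1 hC7 (by norm_num) h3.le
        have k3 : δ * V ≤ δ * V * (3 ^ f * C7) := by
          have := mul_le_mul_of_nonneg_left k2 (by positivity : 0 ≤ δ * V)
          linarith
        have k4 : 0 ≤ δ * V * (3 ^ f * C7) := by positivity
        have k5 : 0 ≤ δ * (3 ^ f * C7) := by positivity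
        have k6 : δ * (16 * 3 ^ f * C7 * (V + 1)) / 8 = 2 * (δ * V * (3 ^ f * C7)) + 2 * (δ * (3 ^ f * C7)) := by ring
        rw [k6]
        linarith
      linarith
    have e6 : δ * N ≤ ε / 8 * N := by
      apply mul_le_mul_of_nonneg_right _ hN0.le
      have k1 : (1 : ℝ) ≤ 3 ^ f := one_le_pow₀ (by norm_num)
      have k2 : (1 : ℝ) * 1 ≤ 3 ^ f * C7 := mul_le_mul k1 hC7 (by norm_num) h3.le
      have k3 : δ ≤ δ * (3 ^ f * C7) := by
        have := mul_le_mul_of_nonneg_left k2 hδ0.le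
        linarith
      have k4 : 0 ≤ δ * V * (3 ^ f * C7) := by positivity
      have k6 : δ * (16 * 3 ^ f * C7 * (V + 1)) = 16 * (δ * V * (3 ^ f * C7)) + 16 * (δ * (3 ^ f * C7)) := by ring
      linarith
    calc (L : ℝ) * ∑ i ∈ Icc 1 (N + L), ‖Ψ (i + 1) - Ψ i‖ ≤ L * (V * N / Q + 2 * L) :=
          mul_le_mul_of_nonneg_left e1 (Nat.cast_nonneg _)
      _ ≤ _ := by linarith
  have c8 : (2 : ℝ) * M ≤ ε / 8 * N := by
    have e6 : δ * N ≤ ε / 8 * N := by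
      apply mul_le_mul_of_nonneg_right _ hN0.le
      have k1 : (1 : ℝ) ≤ 3 ^ f := one_le_pow₀ (by norm_num)
      have k2 : (1 : ℝ) * 1 ≤ 3 ^ f * C7 := mul_le_mul k1 hC7 (by norm_num) h3.le
      have k3 : δ ≤ δ * (3 ^ f * C7) := by
        have := mul_le_mul_of_nonneg_left k2 hδ0.le
        linarith
      have k4 : 0 ≤ δ * V * (3 ^ f * C7) := by positivity
      have k6 : δ * (16 * 3 ^ f * C7 * (V + 1)) = 16 * (δ * V * (3 ^ f * C7)) + 16 * (δ * (3 ^ f * C7)) := by ring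
      linarith
    linarith
  have e9 : 0 ≤ ε * N := by positivity
  linarith

end Pool.Agent.H526.ND
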