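import Mathlib
import Pool.Agent.H526.ND.Last

/-!
# The Liouville function and the distance to the next prime pattern

`H` is a nonempty finite set of natural numbers (`H = {0}`: primes; `H = {0, 2}`: twin primes), `f` its cardinality, and
`dist H n` is the least `j ≥ 1` for which all the numbers `n + j + a`, `a ∈ H`, are primes.

The theorem says that the Liouville function `λ(n)` is asymptotically orthogonal to every product of

* an arbitrary function of the distance `j = dist H n` (where this is at most `C (log N) ^ f`, the order of magnitude of the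
  mean distance of the prime patterns predicted by Hardy and Littlewood, and for `H = {0}` the mean distance of the primes),
* an arbitrary function `b` of the place `n + j` of the next pattern,
* a function `Ψ` of total variation `O(N / (log N) ^ f)` on `[1, N]`; for `H = {0}` this allows everything which
  depends on the positions of the primes around `n` on the scale `log N`, for instance the indicators of
  `π(n + v log N) - π(n + u log N) = m`.

Method: the shifts are cut into blocks of length `(log N) ^ (f - η)`. On the primes of a block the indicator of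
`dist H n = j` and `Ψ` are frozen at one end of the block, which costs `O(N (log N) ^ (-η))` by the upper bound
sieve, and the frozen weights are functions of the prime, to which the library's average form of the Hardy-Littlewood-Chowla
statement over windows of length `(log N) ^ (f - η)` applies with shifts in reversed order.
-/

set_option autoImplicit false

namespace Pool.Agent.Results.MP_e6fa8b_nt.DistanceToNextPrimes

open Finset

/-- The distance from `n` to the next place of the prime pattern `H`: the least `j ≥ 1` for which `n + j + a` is a prime for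
all `a ∈ H` (and `0` if there is none). -/
noncomputable def dist (H : Finset ℕ) (n : ℕ) : ℕ := sInf {j : ℕ | 1 ≤ j ∧ ∀ a ∈ H, (n + j + a).Prime}

lemma dist_iff (H : Finset ℕ) (n j : ℕ) (hj : 1 ≤ j) :
    dist H n = j ↔ Pool.Agent.H526.ND.Nx (Pool.Agent.H526.ND.Tup H) n (n + j) := by
  unfold dist Pool.Agent.H526.ND.Nx Pool.Agent.H526.ND.Tup
  constructor
  · intro h
    have hne : {j : ℕ | 1 ≤ j ∧ ∀ a ∈ H, (n + j + a).Prime}.Nonempty := by
      by_contra hne
      rw [Set.not_nonempty_iff_eq_empty] at hne
      rw [hne, Nat.sInf_empty] at h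
      omega
    have h1 := Nat.sInf_mem hne
    rw [h] at h1
    refine ⟨h1.2, by omega, fun m hm hm' hT => ?_⟩
    have h2 : m - n ∈ {j : ℕ | 1 ≤ j ∧ ∀ a ∈ H, (n + j + a).Prime} := by
      refine ⟨by omega, fun a ha => ?_⟩
      have h3 := hT a ha
      have h4 : n + (m - n) + a = m + a := by omega
      rw [h4]
      exact h3
    have h5 := Nat.sInf_le h2
    rw [h] at h5
    omega
  · rintro ⟨h1, _, h3⟩
    have h2 : j ∈ {j : ℕ | 1 ≤ j ∧ ∀ a ∈ H, (n + j + a).Prime} := ⟨hj, h1⟩
    apply le_antisymm (Nat.sInf_le h2)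
    by_contra hlt
    rw [not_le] at hlt
    have h4 := Nat.sInf_mem ⟨j, h2⟩
    exact h3 _ (by have := h4.1; omega) (by omega) h4.2

open Classical in
/-- Let `H` be a nonempty finite set of natural numbers with `f` elements. For all `C`, `V` and `ε > 0` there is `N₀`
such that for all `N ≥ N₀`, all `b, Ψ : ℕ → ℂ` with values of modulus at most one such that
`∑ n ≤ N, |Ψ (n + 1) - Ψ n| ≤ V N / (log N) ^ f`:
`∑ 1 ≤ j ≤ C (log N) ^ f, |∑ n ≤ N with dist H n = j, b (n + j) Ψ n λ(n)| ≤ ε N`. -/
theorem result (H : Finset ℕ) (hH : H.Nonempty) (C V ε : ℝ) (hε : 0 < ε) : ∃ N₀ : ℕ, ∀ N : ℕ, N₀ ≤ N →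
    ∀ b Ψ : ℕ → ℂ, (∀ n, ‖b n‖ ≤ 1) → (∀ n, ‖Ψ n‖ ≤ 1) →
      ∑ n ∈ Icc 1 N, ‖Ψ (n + 1) - Ψ n‖ ≤ V * N / Real.log N ^ H.card →
      ∑ j ∈ Icc 1 ⌊C * Real.log N ^ H.card⌋₊,
        ‖∑ n ∈ (Icc 1 N).filter (fun n => dist H n = j), b (n + j) * Ψ n * (-1 : ℂ) ^ (ArithmeticFunction.cardFactors n)‖ ≤
          ε * N := by
  have hf : 1 ≤ H.card := Finset.card_pos.mpr hH
  obtain ⟨h, hh⟩ : ∃ h : Fin H.card → ℕ, h = fun i => H.orderEmbOfFin rfl i := ⟨_, rfl⟩
  have hinj : Function.Injective h := by
    rw [hh]
    exact (H.orderEmbOfFin rfl).injective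
  have hmem : ∀ i, h i ∈ H := by
    intro i
    rw [hh]
    exact H.orderEmbOfFin_mem rfl i
  obtain ⟨N₀, hN₀⟩ := Pool.Agent.H526.ND.last hf h hinj (Pool.Agent.H526.ND.Tup H) (fun q hq i => hq _ (hmem i))
    (max C 0) (max V 0) ε (le_max_right _ _) (le_max_right _ _) hε
  refine ⟨N₀ + 3, fun N hN b Ψ hb hΨ hvar => ?_⟩
  have hQ : 0 ≤ Real.log N ^ H.card := pow_nonneg (Real.log_natCast_nonneg _) _
  have h1 := hN₀ N (by omega) b Ψ hb hΨ (hvar.trans (by
    apply div_le_div_of_nonneg_right _ hQ
    exact mul_le_mul_of_nonneg_right (le_max_left _ _) (Nat.cast_nonneg _)))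
  refine le_trans ?_ h1
  refine le_trans (sum_le_sum_of_subset_of_nonneg (Icc_subset_Icc le_rfl (Nat.floor_mono
    (mul_le_mul_of_nonneg_right (le_max_left C 0) hQ))) (fun _ _ _ => norm_nonneg _)) ?_
  apply sum_le_sum
  intro j hj
  rw [mem_Icc] at hj
  apply le_of_eq
  congr 1
  rw [sum_filter]
  apply sum_congr rfl
  intro n _
  by_cases hd : dist H n = j
  · rw [if_pos hd, if_pos ((dist_iff H n j hj.1).mp hd)]
    rfl
  · rw [if_neg hd, if_neg (fun h' => hd ((dist_iff H n j hj.1).mpr h'))]

end Pool.Agent.Results.MP_e6fa8b_nt.DistanceToNextPrimes
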